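import Pool.Agent.Helper83.MaxTSP.Main

open Pool.Agent.Helper83.MaxTSP

namespace Pool.Agent.Results.MP_addf94_lc.STSPConstantRatio

/-- For every number `k` of criteria there is a deterministic approximation algorithm with the
constant ratio `1/320` for Max-STSP. -/
theorem result : ∀ k : ℕ, ApproxSTSP k (1 / 320) := approxSTSP

end Pool.Agent.Results.MP_addf94_lc.STSPConstantRatio
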